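import Pool.Agent.J6H52.Cop.PlainA

/-!
# The product criterion beyond the slope `1 / (1 + α)`
-/

set_option autoImplicit false

open MeasureTheory ProbabilityTheory Filter Topology
open Cop764 Pool.Agent.J6H63.Cop

namespace Pool.Agent.J6H52.Cop

theorem K_sum (B : Base) (η : ℝ) (hη : 0 < η) :
    ∃ R0 : ℕ, ∀ R, R0 ≤ R → 1 - η ≤ ∑ m ∈ Finset.Icc 1 R, B.K m := by
  have h1 : ∑' n, B.κ n = 1 := B.κ.tsum_coe
  have h2 : HasSum (fun n => (B.κ n).toReal) 1 := by
    have h3 := ENNReal.hasSum_toReal (f := fun n => B.κ n) (by rw [h1]; exact ENNReal.one_ne_top)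
    rw [← ENNReal.tsum_toReal_eq (fun n => B.κ.apply_ne_top n), h1, ENNReal.toReal_one] at h3
    exact h3
  have h3 := (h2.tendsto_sum_nat).comp (tendsto_add_atTop_nat 1)
  have h4 := h3.eventually (lt_mem_nhds (show 1 - η < 1 by linarith))
  obtain ⟨R0, hR0⟩ := eventually_atTop.1 h4
  refine ⟨R0, fun R hR => ?_⟩
  have h5 := hR0 R hR
  have h6 : ∑ m ∈ Finset.range (R + 1), (B.κ m).toReal = ∑ m ∈ Finset.Icc 1 R, B.K m := by
    rw [Finset.range_eq_Ico, Finset.sum_eq_sum_Ico_succ_bot (Nat.succ_pos R), B.κ0,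
      ENNReal.toReal_zero, zero_add]
    rfl
  rw [← h6]
  exact h5.le

theorem plain : PlainT := by
  classical
  intro hKmin hKlow hClt B
  have hα := B.hα
  set g := gam B.α with hg
  have hg0 : 0 < g := by
    rw [hg]
    unfold gam
    positivity
  have hg1 : g < 1 := by
    rw [hg]
    unfold gam
    exact inv_lt_one_of_one_lt₀ (by linarith)
  obtain ⟨c, hc, hgap⟩ := rpow_half_gap hg0 hg1
  obtain ⟨p, n1, hp, hclt⟩ := hClt B (1 / 2) 1 (by norm_num)
  obtain ⟨Cm, hCm, hmin⟩ := hKmin B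
  obtain ⟨ck, T0, hck, hlow⟩ := hKlow B 1 2 one_pos (by norm_num)
  have he8 : 0 < Real.exp (-8) := Real.exp_pos _
  set c2 := c * p * Real.exp (-8) * ck / 4 with hc2
  have hc20 : 0 < c2 := by positivity
  obtain ⟨δ, hδ0, hδg, hδ1, hδC⟩ :
      ∃ δ : ℝ, 0 < δ ∧ δ ≤ g ∧ δ ≤ 1 / 4 ∧ Cm * (4 * δ) ^ B.α ≤ c2 := by
    refine ⟨min g (min (1 / 4) ((c2 / Cm) ^ (1 / B.α) / 4)), by positivity, min_le_left _ _,
      (min_le_right _ _).trans (min_le_left _ _), ?_⟩
    have h1 : 4 * min g (min (1 / 4) ((c2 / Cm) ^ (1 / B.α) / 4)) ≤ (c2 / Cm) ^ (1 / B.α) := by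
      have := (min_le_right g (min (1 / 4) ((c2 / Cm) ^ (1 / B.α) / 4))).trans (min_le_right _ _)
      linarith
    have h2 : (4 * min g (min (1 / 4) ((c2 / Cm) ^ (1 / B.α) / 4))) ^ B.α ≤ c2 / Cm := by
      refine (Real.rpow_le_rpow (by positivity) h1 hα.le).trans (le_of_eq ?_)
      rw [← Real.rpow_mul (by positivity), one_div, inv_mul_cancel₀ hα.ne', Real.rpow_one]
    calc _ ≤ Cm * (c2 / Cm) := mul_le_mul_of_nonneg_left h2 hCm.le
      _ = c2 := by field_simp
  obtain ⟨t0, ht0, hlog⟩ := log_mgf B.ν B.mean B.var B.expm (δ / (2 * g)) (by positivity)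
  refine ⟨δ, c2, min (t0 / (2 * g)) (1 / (1 + |T0| + n1)), hδ0, hc20, by positivity,
    fun lam hl hll => ?_⟩
  have hl1 : lam < t0 / (2 * g) := hll.trans_le (min_le_left _ _)
  have hl2 : lam < 1 / (1 + |T0| + n1) := hll.trans_le (min_le_right _ _)
  have hinv : 1 + |T0| + n1 < lam⁻¹ := by
    rw [lt_inv_comm₀ (by positivity) hl, ← one_div]
    exact hl2
  have hn1 : (0:ℝ) ≤ n1 := Nat.cast_nonneg _
  have hinv1 : 1 ≤ lam⁻¹ := by linarith [abs_nonneg T0]
  set T := lam⁻¹ ^ 2 with hT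
  have hTl : lam⁻¹ ≤ T := by
    rw [hT, pow_two]
    exact le_mul_of_one_le_left (by linarith) hinv1
  have hT0 : T0 ≤ T := by linarith [le_abs_self T0]
  have hTn : (n1 : ℝ) ≤ T := by linarith [abs_nonneg T0]
  have hT1 : 1 ≤ T := by linarith
  have hTpos : 0 < T := by linarith
  have hTlam : T * lam ^ 2 = 1 := by
    rw [hT]
    field_simp
  set L := lam ^ (2 * B.α) with hL
  have hL0 : 0 < L := Real.rpow_pos_of_pos hl _
  have hTα : T ^ (-B.α) = L := by
    rw [hT, hL, inv_pow, Real.inv_rpow (by positivity), Real.rpow_neg (by positivity), inv_inv,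
      ← Real.rpow_natCast, ← Real.rpow_mul hl.le]
    norm_num
  set T' := T / (4 * δ) with hT'
  have hT'1 : 1 ≤ T' := by
    rw [hT', le_div_iff₀ (by positivity)]
    linarith
  have hT'0 : 0 < T' := by linarith
  have hT'α : T' ^ (-B.α) = (4 * δ) ^ B.α * L := by
    rw [hT', Real.div_rpow hTpos.le (by positivity), hTα, Real.rpow_neg (by positivity)]
    field_simp
  -- the critical height for the plain criterion
  set M := ∫ x, Real.exp (-2 * lam * g * x) ∂B.ν with hM
  have hM1 : 1 ≤ M := one_le_mgf B.ν B.mean B.expm (-2 * lam * g)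
  have hlogM := hlog (-2 * lam * g) (by
    have : |-2 * lam * g| = lam * (2 * g) := by
      rw [abs_of_neg (by nlinarith)]
      ring
    rw [this]
    exact (lt_div_iff₀ (by positivity)).1 hl1)
  rw [← hM] at hlogM
  have e1 : (-2 * lam * g) ^ 2 = 4 * lam ^ 2 * g ^ 2 := by ring
  have e2 : δ / (2 * g) * (4 * lam ^ 2 * g ^ 2) = 2 * δ * lam ^ 2 * g := by
    field_simp
    ring
  rw [e1, e2, abs_le] at hlogM
  set hs := Real.log M / (2 * lam * g) with hhs
  have hlg : 0 < 2 * lam * g := by positivity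
  have hMe : M = Real.exp (2 * lam * g * hs) := by
    rw [hhs, mul_div_cancel₀ _ hlg.ne', Real.exp_log (by linarith)]
  have hs1 : (g - δ) * lam ≤ hs := by
    have e3 : (g - δ) * lam * (2 * lam * g) = 4 * lam ^ 2 * g ^ 2 / 2 - 2 * δ * lam ^ 2 * g := by ring
    rw [hhs, le_div_iff₀ hlg, e3]
    linarith [hlogM.1]
  have hs2 : hs ≤ (g + δ) * lam := by
    have e3 : (g + δ) * lam * (2 * lam * g) = 4 * lam ^ 2 * g ^ 2 / 2 + 2 * δ * lam ^ 2 * g := by ring
    rw [hhs, div_le_iff₀ hlg, e3]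
    linarith [hlogM.2]
  have hs0 : 0 ≤ hs := le_trans (mul_nonneg (by linarith) hl.le) hs1
  -- the bound for each length
  have hph : ∀ m : ℕ, 1 - min ((m : ℝ) / T') 1 +
      (if 1 * T ≤ (m : ℝ) ∧ (m : ℝ) ≤ 2 * T then c * p * Real.exp (-8) else 0) ≤
      ph (B.dat lam hl) ((g + δ) * lam) m := by
    intro m
    have hm0 : (0:ℝ) ≤ m := Nat.cast_nonneg m
    have hv : 2 * lam * ((g + δ) * lam - hs) * m ≤ m / T' := by
      have h1 : (m : ℝ) / T' = 4 * δ * lam ^ 2 * m := by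
        rw [hT', div_div_eq_mul_div, div_eq_iff hTpos.ne']
        calc (m : ℝ) * (4 * δ) = 4 * δ * m * 1 := by ring
          _ = 4 * δ * m * (T * lam ^ 2) := by rw [hTlam]
          _ = _ := by ring
      rw [h1]
      have h2 : (g + δ) * lam - hs ≤ 2 * δ * lam := by linarith
      have h3 : 2 * lam * ((g + δ) * lam - hs) ≤ 4 * δ * lam ^ 2 := by nlinarith
      exact mul_le_mul_of_nonneg_right h3 hm0
    have hv0 : 0 ≤ 2 * lam * ((g + δ) * lam - hs) * m := by
      have : 0 ≤ (g + δ) * lam - hs := by linarith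
      positivity
    have hexp : 1 - min ((m : ℝ) / T') 1 ≤
        Real.exp (-(2 * lam * ((g + δ) * lam - hs) * m)) := by
      have h1 := Real.add_one_le_exp (-(2 * lam * ((g + δ) * lam - hs) * m))
      have h2 := Real.exp_pos (-(2 * lam * ((g + δ) * lam - hs) * m))
      rcases le_total ((m : ℝ) / T') 1 with h | h
      · rw [min_eq_left h]
        linarith
      · rw [min_eq_right h]
        linarith
    split_ifs with hwin
    · -- the window
      have hq : p ≤ (B.dat lam hl).P.real {ω | S ((B.dat lam hl).w hs ω) 0 m ≤ -1} := by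
        have hmn : n1 ≤ m := by
          have : (n1 : ℝ) ≤ m := by linarith [hwin.1]
          exact_mod_cast this
        refine (hclt m hmn 0).trans ?_
        refine measureReal_mono (fun ω hω => ?_) (measure_ne_top _ _)
        rw [zero_add] at hω
        have hω1 := hω.1
        show S ((B.dat lam hl).w hs ω) 0 m ≤ -1
        rw [S_eq]
        show -2 * lam * ∑ i ∈ Finset.Ioc 0 m, ω i + -2 * lam * hs * m ≤ -1
        have h1 : lam⁻¹ ≤ √(m : ℝ) := by
          refine Real.le_sqrt_of_sq_le ?_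
          linarith [hwin.1]
        have h2 : 1 ≤ lam * √(m : ℝ) := by
          have h3 := mul_le_mul_of_nonneg_left h1 hl.le
          rwa [mul_inv_cancel₀ hl.ne'] at h3
        have h3 : 0 ≤ 2 * lam * hs * m := by positivity
        have h4 : lam * (1 / 2 * √(m : ℝ)) ≤ lam * ∑ i ∈ Finset.Ioc 0 m, ω i :=
          mul_le_mul_of_nonneg_left hω1.le hl.le
        nlinarith
      have h1 := ph_lower (B.dat lam hl) hg0 hg1 hg (hs := hs) (h := (g + δ) * lam) hMe hs2 m
        hc.le hgap hq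
      refine le_trans ?_ h1
      show 1 - min ((m : ℝ) / T') 1 + c * p * Real.exp (-8) ≤
        Real.exp (-(2 * lam * ((g + δ) * lam - hs) * m)) * (1 + c * p)
      have h2 : Real.exp (-8) ≤ Real.exp (-(2 * lam * ((g + δ) * lam - hs) * m)) := by
        rw [Real.exp_le_exp]
        have h3 : (m : ℝ) / T' ≤ 8 := by
          rw [div_le_iff₀ hT'0]
          have h4 : 2 * T ≤ 8 * T' := by
            rw [hT']
            have h5 : T ≤ T / (4 * δ) := by
              rw [le_div_iff₀ (by positivity)]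
              nlinarith
            linarith
          linarith [hwin.2]
        linarith
      have h3 : c * p * Real.exp (-8) ≤
          Real.exp (-(2 * lam * ((g + δ) * lam - hs) * m)) * (c * p) := by
        rw [mul_comm]
        exact mul_le_mul_of_nonneg_right h2 (by positivity)
      rw [mul_add, mul_one]
      linarith
    · have h1 := ph_lower (B.dat lam hl) hg0 hg1 hg (hs := hs) (h := (g + δ) * lam) hMe hs2 m
        hc.le hgap (q := 0) measureReal_nonneg
      refine le_trans ?_ h1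
      show 1 - min ((m : ℝ) / T') 1 + 0 ≤
        Real.exp (-(2 * lam * ((g + δ) * lam - hs) * m)) * (1 + c * 0)
      rw [mul_zero, add_zero, add_zero, mul_one]
      exact hexp
  obtain ⟨R1, hR1⟩ := K_sum B (c2 * L) (by positivity)
  refine ⟨max R1 ⌈2 * T⌉₊, fun R hR => ?_⟩
  have hRT : 2 * T ≤ R := by
    have h1 : ⌈2 * T⌉₊ ≤ R := (le_max_right _ _).trans hR
    exact (Nat.le_ceil _).trans (by exact_mod_cast h1)
  have h1 := hR1 R ((le_max_left _ _).trans hR)
  have h2 := hmin T' hT'1 R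
  have h3 := hlow T hT0 R hRT
  have hK0 : ∀ m, 0 ≤ B.K m := fun m => ENNReal.toReal_nonneg
  have h4 : ∑ m ∈ Finset.Icc 1 R, B.K m * (1 - min ((m : ℝ) / T') 1 +
      (if 1 * T ≤ (m : ℝ) ∧ (m : ℝ) ≤ 2 * T then c * p * Real.exp (-8) else 0)) ≤
      ∑ m ∈ Finset.Icc 1 R, B.K m * ph (B.dat lam hl) ((g + δ) * lam) m :=
    Finset.sum_le_sum fun m _ => mul_le_mul_of_nonneg_left (hph m) (hK0 m)
  have h5 : ∑ m ∈ Finset.Icc 1 R, B.K m * (1 - min ((m : ℝ) / T') 1 +
      (if 1 * T ≤ (m : ℝ) ∧ (m : ℝ) ≤ 2 * T then c * p * Real.exp (-8) else 0)) =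
      ∑ m ∈ Finset.Icc 1 R, B.K m - ∑ m ∈ Finset.Icc 1 R, B.K m * min ((m : ℝ) / T') 1 +
        (c * p * Real.exp (-8)) * ∑ m ∈ (Finset.Icc 1 R).filter
          (fun m : ℕ => 1 * T ≤ (m : ℝ) ∧ (m : ℝ) ≤ 2 * T), B.K m := by
    rw [Finset.sum_filter, Finset.mul_sum, ← Finset.sum_sub_distrib, ← Finset.sum_add_distrib]
    refine Finset.sum_congr rfl fun m _ => ?_
    split_ifs <;> ring
  refine le_trans ?_ h4
  rw [h5]
  have h6 : (c * p * Real.exp (-8)) * (ck * T ^ (-B.α)) ≤ (c * p * Real.exp (-8)) *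
      ∑ m ∈ (Finset.Icc 1 R).filter (fun m : ℕ => 1 * T ≤ (m : ℝ) ∧ (m : ℝ) ≤ 2 * T), B.K m :=
    mul_le_mul_of_nonneg_left h3 (by positivity)
  have h7 : (c * p * Real.exp (-8)) * (ck * T ^ (-B.α)) = 4 * c2 * L := by
    rw [hTα, hc2]
    ring
  rw [hT'α] at h2
  have h8 : Cm * ((4 * δ) ^ B.α * L) ≤ c2 * L := by
    rw [← mul_assoc]
    exact mul_le_mul_of_nonneg_right hδC hL0.le
  have h9 : 0 < c2 * L := by positivity
  linarith

end Pool.Agent.J6H52.Cop
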