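import Pool.Agent.J6H63.Cop.Stm

/-!
# The product criterion beyond the slope `1 / (1 + α)`: preparations
-/

set_option autoImplicit false

open MeasureTheory ProbabilityTheory Filter Topology
open Cop764 Pool.Agent.J6H63.Cop

namespace Pool.Agent.J6H52.Cop

/-! ## concavity -/

theorem rpow_half {g y : ℝ} (hg : 0 < g) (hg1 : g < 1) (hy : 0 ≤ y) :
    (1 + y ^ g) / 2 ≤ ((1 + y) / 2) ^ g := by
  have h := (Real.concaveOn_rpow hg.le hg1.le).2 (show (1:ℝ) ∈ Set.Ici 0 by simp)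
    (show y ∈ Set.Ici (0:ℝ) from hy) (show (0:ℝ) ≤ 1 / 2 by norm_num)
    (show (0:ℝ) ≤ 1 / 2 by norm_num) (by norm_num)
  simp only [smul_eq_mul, Real.one_rpow] at h
  have e1 : (1:ℝ) / 2 * 1 + 1 / 2 * y = (1 + y) / 2 := by ring
  rw [e1] at h
  linarith

theorem rpow_half_gap {g : ℝ} (hg : 0 < g) (hg1 : g < 1) :
    ∃ c : ℝ, 0 < c ∧ ∀ y : ℝ, 0 ≤ y → y ≤ Real.exp (-1) →
      (1 + y ^ g) / 2 + c ≤ ((1 + y) / 2) ^ g := by
  have he : 0 < Real.exp (-1) := Real.exp_pos _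
  have he1 : Real.exp (-1) < 1 := by
    rw [Real.exp_lt_one_iff]
    norm_num
  have hcont : ContinuousOn (fun y : ℝ => ((1 + y) / 2) ^ g - (1 + y ^ g) / 2)
      (Set.Icc 0 (Real.exp (-1))) := by
    refine ContinuousOn.sub ?_ ?_
    · exact (ContinuousOn.rpow_const (by fun_prop) (fun x _ => Or.inr hg.le))
    · exact ((continuousOn_const.add (ContinuousOn.rpow_const continuousOn_id
        (fun x _ => Or.inr hg.le))).div_const 2)
  obtain ⟨y0, hy0, hmin⟩ := isCompact_Icc.exists_isMinOn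
    (Set.nonempty_Icc.2 he.le) hcont
  have hpos : 0 < ((1 + y0) / 2) ^ g - (1 + y0 ^ g) / 2 := by
    have hne : (1:ℝ) ≠ y0 := by
      intro h
      rw [← h] at hy0
      linarith [hy0.2]
    have h := (Real.strictConcaveOn_rpow hg hg1).2 (show (1:ℝ) ∈ Set.Ici 0 by simp)
      (show y0 ∈ Set.Ici (0:ℝ) from hy0.1) hne (show (0:ℝ) < 1 / 2 by norm_num)
      (show (0:ℝ) < 1 / 2 by norm_num) (by norm_num)
    simp only [smul_eq_mul, Real.one_rpow] at h
    have e1 : (1:ℝ) / 2 * 1 + 1 / 2 * y0 = (1 + y0) / 2 := by ring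
    rw [e1] at h
    linarith
  refine ⟨_, hpos, fun y hy hy1 => ?_⟩
  have h := hmin (show y ∈ Set.Icc 0 (Real.exp (-1)) from ⟨hy, hy1⟩)
  simp only [Set.mem_ofPred_eq] at h
  linarith

/-! ## the moment generating function -/

section mgf
variable (ν : Measure ℝ) [IsProbabilityMeasure ν]

omit [IsProbabilityMeasure ν] in
theorem cube_int (expm : ∀ t : ℝ, Integrable (fun x => Real.exp (t * x)) ν) :
    Integrable (fun x => |x| ^ 3 * Real.exp |x|) ν := by
  refine Integrable.mono' (((expm 2).add (expm (-2))).const_mul 6)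
    (by fun_prop) (Filter.Eventually.of_forall fun x => ?_)
  have h1 : |x| ^ 3 ≤ 6 * Real.exp |x| := by
    have h := Real.pow_div_factorial_le_exp |x| (abs_nonneg x) 3
    have h2 : ((Nat.factorial 3 : ℕ) : ℝ) = 6 := by norm_num [Nat.factorial]
    rw [h2, div_le_iff₀ (by norm_num)] at h
    linarith
  have h2 : Real.exp (2 * |x|) ≤ Real.exp (2 * x) + Real.exp (-2 * x) := by
    rcases le_total 0 x with h | h
    · rw [abs_of_nonneg h]
      linarith [Real.exp_pos (-2 * x)]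
    · rw [abs_of_nonpos h]
      have e : 2 * -x = -2 * x := by ring
      rw [e]
      linarith [Real.exp_pos (2 * x)]
  have h3 : Real.exp (2 * |x|) = Real.exp |x| * Real.exp |x| := by
    rw [← Real.exp_add]
    ring_nf
  have h0 : 0 ≤ |x| ^ 3 * Real.exp |x| := by positivity
  rw [Real.norm_of_nonneg h0]
  calc |x| ^ 3 * Real.exp |x| ≤ 6 * Real.exp |x| * Real.exp |x| :=
        mul_le_mul_of_nonneg_right h1 (Real.exp_pos _).le
    _ = 6 * Real.exp (2 * |x|) := by rw [h3]; ring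
    _ ≤ 6 * (Real.exp (2 * x) + Real.exp (-2 * x)) := by linarith
    _ = _ := by simp

theorem one_le_mgf (mean : ∫ x, x ∂ν = 0)
    (expm : ∀ t : ℝ, Integrable (fun x => Real.exp (t * x)) ν) (t : ℝ) :
    1 ≤ ∫ x, Real.exp (t * x) ∂ν := by
  have hx : Integrable (fun x : ℝ => x) ν := by
    have h := integrable_pow_of_integrable_exp_mul (X := fun x : ℝ => x) (t := 1) one_ne_zero
      (expm 1) (expm (-1)) 1
    simpa using h
  have h : ∫ x, (1 + t * x) ∂ν ≤ ∫ x, Real.exp (t * x) ∂ν := by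
    refine integral_mono ((integrable_const _).add (hx.const_mul t)) (expm t) fun x => ?_
    have := Real.add_one_le_exp (t * x)
    show 1 + t * x ≤ Real.exp (t * x)
    linarith
  rw [integral_add (integrable_const _) (hx.const_mul t), integral_const_mul, mean] at h
  simpa using h

theorem mgf_expand (mean : ∫ x, x ∂ν = 0) (var : ∫ x, x ^ 2 ∂ν = 1)
    (expm : ∀ t : ℝ, Integrable (fun x => Real.exp (t * x)) ν) (t : ℝ) (ht : |t| ≤ 1) :
    |∫ x, Real.exp (t * x) ∂ν - 1 - t ^ 2 / 2| ≤ |t| ^ 3 * ∫ x, |x| ^ 3 * Real.exp |x| ∂ν := by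
  have hpow : ∀ k : ℕ, Integrable (fun x : ℝ => x ^ k) ν := fun k =>
    integrable_pow_of_integrable_exp_mul (X := fun x : ℝ => x) (t := 1) one_ne_zero
      (expm 1) (expm (-1)) k
  have hx : Integrable (fun x : ℝ => x) ν := by simpa using hpow 1
  have i1 : Integrable (fun x : ℝ => 1 + t * x) ν := (integrable_const _).add (hx.const_mul t)
  have i2 : Integrable (fun x : ℝ => t ^ 2 / 2 * x ^ 2) ν := (hpow 2).const_mul _
  have i3 : Integrable (fun x : ℝ => 1 + t * x + t ^ 2 / 2 * x ^ 2) ν := i1.add i2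
  have e1 : ∫ x, Real.exp (t * x) ∂ν - 1 - t ^ 2 / 2 =
      ∫ x, (Real.exp (t * x) - (1 + t * x + t ^ 2 / 2 * x ^ 2)) ∂ν := by
    rw [integral_sub (expm t) i3, integral_add i1 i2,
      integral_add (integrable_const _) (hx.const_mul t),
      integral_const_mul, integral_const_mul, mean, var]
    simp
    ring
  rw [e1, ← integral_const_mul]
  refine (abs_integral_le_integral_abs).trans (integral_mono ?_ ((cube_int ν expm).const_mul _) ?_)
  · exact ((expm t).sub i3).abs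
  · intro x
    show |Real.exp (t * x) - (1 + t * x + t ^ 2 / 2 * x ^ 2)| ≤ |t| ^ 3 * (|x| ^ 3 * Real.exp |x|)
    have h := Complex.norm_exp_sub_sum_le_norm_mul_exp ((t * x : ℝ) : ℂ) 3
    have e2 : Complex.exp ((t * x : ℝ) : ℂ) - ∑ m ∈ Finset.range 3, ((t * x : ℝ) : ℂ) ^ m /
        (m.factorial : ℂ) = ((Real.exp (t * x) - (1 + t * x + t ^ 2 / 2 * x ^ 2) : ℝ) : ℂ) := by
      simp only [Finset.sum_range_succ, Finset.sum_range_zero]
      push_cast [Nat.factorial]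
      ring
    rw [e2, Complex.norm_real, Complex.norm_real, Real.norm_eq_abs, Real.norm_eq_abs] at h
    refine h.trans ?_
    rw [abs_mul, mul_pow, mul_assoc]
    refine mul_le_mul_of_nonneg_left (mul_le_mul_of_nonneg_left ?_ (by positivity)) (by positivity)
    rw [Real.exp_le_exp]
    calc |t| * |x| ≤ 1 * |x| := mul_le_mul_of_nonneg_right ht (abs_nonneg x)
      _ = |x| := one_mul _

/-- second order expansion of the logarithm of the moment generating function -/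
theorem log_mgf (mean : ∫ x, x ∂ν = 0) (var : ∫ x, x ^ 2 ∂ν = 1)
    (expm : ∀ t : ℝ, Integrable (fun x => Real.exp (t * x)) ν) (ε : ℝ) (hε : 0 < ε) :
    ∃ t0 : ℝ, 0 < t0 ∧ ∀ t : ℝ, |t| < t0 →
      |Real.log (∫ x, Real.exp (t * x) ∂ν) - t ^ 2 / 2| ≤ ε * t ^ 2 := by
  set A := ∫ x, |x| ^ 3 * Real.exp |x| ∂ν with hA
  have hA0 : 0 ≤ A := integral_nonneg fun x => by positivity
  refine ⟨min 1 (ε / (A + (1 / 2 + A) ^ 2 + 1)), lt_min one_pos (by positivity), fun t ht => ?_⟩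
  have ht1 : |t| ≤ 1 := (ht.trans_le (min_le_left _ _)).le
  have ht2 : |t| * (A + (1 / 2 + A) ^ 2 + 1) < ε := by
    rw [← lt_div_iff₀ (by positivity)]
    exact ht.trans_le (min_le_right _ _)
  have h0 : 0 ≤ |t| := abs_nonneg t
  have hexp := mgf_expand ν mean var expm t ht1
  have h1 := one_le_mgf ν mean expm t
  rw [← hA] at hexp
  set M := ∫ x, Real.exp (t * x) ∂ν with hM
  have hsq : t ^ 2 = |t| ^ 2 := (sq_abs t).symm
  rw [hsq] at hexp ⊢
  have hM0 : 0 < M := by linarith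
  set T := |t| with hT
  have ha := abs_le.1 hexp
  have hup : Real.log M ≤ M - 1 := Real.log_le_sub_one_of_pos hM0
  have hlow : (M - 1) - (M - 1) ^ 2 ≤ Real.log M := by
    have h2 := Real.one_sub_inv_le_log_of_pos hM0
    refine le_trans ?_ h2
    have h3 : (M - 1) - (M - 1) ^ 2 ≤ 1 - M⁻¹ := by
      rw [← sub_nonneg]
      have : 1 - M⁻¹ - ((M - 1) - (M - 1) ^ 2) = (M - 1) ^ 3 / M := by
        field_simp
        ring
      rw [this]
      have : 0 ≤ M - 1 := by linarith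
      positivity
    exact h3
  have hy : M - 1 ≤ T ^ 2 * (1 / 2 + A) := by
    have : T ^ 3 * A ≤ T ^ 2 * A := by
      have h3 : T ^ 3 = T ^ 2 * T := by ring
      have h4 : 0 ≤ T ^ 2 * A := by positivity
      rw [h3]
      nlinarith
    nlinarith [ha.2]
  have hy2 : (M - 1) ^ 2 ≤ T ^ 3 * (1 / 2 + A) ^ 2 := by
    have h3 : (M - 1) ^ 2 ≤ (T ^ 2 * (1 / 2 + A)) ^ 2 :=
      pow_le_pow_left₀ (by linarith) hy 2
    refine h3.trans ?_
    have h4 : (T ^ 2 * (1 / 2 + A)) ^ 2 = T ^ 3 * (1 / 2 + A) ^ 2 * T := by ring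
    rw [h4]
    have h5 : 0 ≤ T ^ 3 * (1 / 2 + A) ^ 2 := by positivity
    nlinarith
  have hfin : T ^ 3 * (A + (1 / 2 + A) ^ 2 + 1) ≤ ε * T ^ 2 := by
    have h3 : T ^ 3 * (A + (1 / 2 + A) ^ 2 + 1) = (T * (A + (1 / 2 + A) ^ 2 + 1)) * T ^ 2 := by ring
    rw [h3]
    exact mul_le_mul_of_nonneg_right ht2.le (by positivity)
  have hT3 : 0 ≤ T ^ 3 := by positivity
  have hT4 : 0 ≤ T ^ 3 * (1 / 2 + A) ^ 2 := by positivity
  rw [abs_le]
  constructor
  · nlinarith [ha.1]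
  · nlinarith [ha.2]

end mgf

/-! ## the weights -/

theorem int_exp (D : Data) (t : ℝ) (m : ℕ) :
    ∫ ω : ℕ → ℝ, Real.exp (t * ∑ i ∈ Finset.Ioc 0 m, ω i) ∂D.P =
      (∫ x, Real.exp (t * x) ∂D.ν) ^ m := by
  have h := (M_absS.J_absS_iind D).mgf_sum (t := t) (fun i => measurable_pi_apply i)
    (Finset.Ioc 0 m)
  have h1 : mgf (∑ i ∈ Finset.Ioc 0 m, fun ω : ℕ → ℝ => ω i) D.P t =
      ∫ ω : ℕ → ℝ, Real.exp (t * ∑ i ∈ Finset.Ioc 0 m, ω i) ∂D.P := by
    unfold mgf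
    simp [Finset.sum_apply]
  have h2 : ∀ i : ℕ, mgf (fun ω : ℕ → ℝ => ω i) D.P t = ∫ x, Real.exp (t * x) ∂D.ν := fun i =>
    M_absS.J_absS_int1 D i (fun x => Real.exp (t * x)) (by fun_prop)
  rw [h1] at h
  rw [h, Finset.prod_congr rfl fun i _ => h2 i, Finset.prod_const, Nat.card_Ioc, Nat.sub_zero]

theorem S_eq (D : Data) (h : ℝ) (ω : ℕ → ℝ) (m : ℕ) :
    S (D.w h ω) 0 m = -2 * D.lam * ∑ i ∈ Finset.Ioc 0 m, ω i + -2 * D.lam * h * m := by
  unfold S Data.w
  rw [← Finset.mul_sum, Finset.sum_add_distrib, Finset.sum_const, Nat.card_Ioc, Nat.sub_zero,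
    nsmul_eq_mul]
  ring

theorem S_meas (D : Data) (h : ℝ) (m : ℕ) : Measurable fun ω : ℕ → ℝ => S (D.w h ω) 0 m := by
  simp only [S_eq]
  fun_prop

theorem phi_pos (w : ℕ → ℝ) (i j : ℕ) : 0 < phi w i j := by
  unfold phi
  positivity

theorem phi_meas (D : Data) (h : ℝ) (m : ℕ) :
    Measurable fun ω : ℕ → ℝ => phi (D.w h ω) 0 m := by
  unfold phi
  exact ((measurable_const.add (S_meas D h m).exp)).div_const 2

theorem exp_int (D : Data) (h a : ℝ) (m : ℕ) :
    Integrable (fun ω : ℕ → ℝ => Real.exp (a * S (D.w h ω) 0 m)) D.P := by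
  have h1 : (fun ω : ℕ → ℝ => Real.exp (a * S (D.w h ω) 0 m)) = fun ω : ℕ → ℝ =>
      Real.exp (a * (-2 * D.lam) * ∑ i ∈ Finset.Ioc 0 m, ω i) *
        Real.exp (a * (-2 * D.lam * h * m)) := by
    funext ω
    rw [S_eq, ← Real.exp_add]
    ring_nf
  rw [h1]
  exact (M_absS.J_absS_expT D m _).mul_const _

theorem phi_int (D : Data) (h : ℝ) (m : ℕ) :
    Integrable (fun ω : ℕ → ℝ => phi (D.w h ω) 0 m) D.P := by
  unfold phi
  have h1 := exp_int D h 1 m
  simp only [one_mul] at h1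
  exact ((integrable_const _).add h1).div_const 2

theorem phig_int (D : Data) (h : ℝ) {g : ℝ} (hg : 0 ≤ g) (hg1 : g ≤ 1) (m : ℕ) :
    Integrable (fun ω : ℕ → ℝ => phi (D.w h ω) 0 m ^ g) D.P := by
  refine Integrable.mono' ((integrable_const (1:ℝ)).add (phi_int D h m))
    ((phi_meas D h m).pow_const g).aestronglyMeasurable
    (Filter.Eventually.of_forall fun ω => ?_)
  have h0 := phi_pos (D.w h ω) 0 m
  rw [Real.norm_of_nonneg (Real.rpow_nonneg h0.le g)]
  show _ ≤ 1 + phi (D.w h ω) 0 m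
  rcases le_total (phi (D.w h ω) 0 m) 1 with h1 | h1
  · have := Real.rpow_le_one h0.le h1 hg
    linarith
  · have h2 := Real.rpow_le_rpow_of_exponent_le h1 hg1
    rw [Real.rpow_one] at h2
    linarith

/-- the lower bound for the moments of the weights -/
theorem ph_lower (D : Data) {g : ℝ} (hg : 0 < g) (hg1 : g < 1) (hgD : g = gam D.α) {hs h : ℝ}
    (hM : ∫ x, Real.exp (-2 * D.lam * g * x) ∂D.ν = Real.exp (2 * D.lam * g * hs)) (hh : hs ≤ h)
    (m : ℕ) {c q : ℝ} (hc : 0 ≤ c)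
    (hgap : ∀ y : ℝ, 0 ≤ y → y ≤ Real.exp (-1) → (1 + y ^ g) / 2 + c ≤ ((1 + y) / 2) ^ g)
    (hq : q ≤ D.P.real {ω | S (D.w hs ω) 0 m ≤ -1}) :
    Real.exp (-(2 * D.lam * (h - hs) * m)) * (1 + c * q) ≤ ph D h m := by
  set v : ℝ := 2 * D.lam * (h - hs) * m with hv
  have hl := D.hlam
  have hv0 : 0 ≤ v := by
    have : 0 ≤ h - hs := by linarith
    positivity
  have hev : Real.exp (-v) ≤ 1 := Real.exp_le_one_iff.2 (by linarith)
  -- the integral at `hs`
  have hEg : ∫ ω, Real.exp (g * S (D.w hs ω) 0 m) ∂D.P = 1 := by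
    have h1 : ∀ ω : ℕ → ℝ, Real.exp (g * S (D.w hs ω) 0 m) =
        Real.exp ((-2 * D.lam * g) * ∑ i ∈ Finset.Ioc 0 m, ω i) *
          Real.exp (-(m * (2 * D.lam * g * hs))) := by
      intro ω
      rw [S_eq, ← Real.exp_add]
      ring_nf
    simp only [h1]
    rw [integral_mul_const, int_exp, hM, ← Real.exp_nat_mul, ← Real.exp_add, add_neg_cancel,
      Real.exp_zero]
  have hset : MeasurableSet {ω : ℕ → ℝ | S (D.w hs ω) 0 m ≤ -1} :=
    (S_meas D hs m) measurableSet_Iic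
  have hpt : ∀ ω : ℕ → ℝ, (1 + Real.exp (g * S (D.w hs ω) 0 m)) / 2 +
      {ω : ℕ → ℝ | S (D.w hs ω) 0 m ≤ -1}.indicator (fun _ => c) ω ≤ phi (D.w hs ω) 0 m ^ g := by
    intro ω
    have e1 : Real.exp (g * S (D.w hs ω) 0 m) = Real.exp (S (D.w hs ω) 0 m) ^ g := by
      rw [← Real.exp_mul, mul_comm]
    rw [e1]
    unfold phi
    by_cases hω : S (D.w hs ω) 0 m ≤ -1
    · rw [Set.indicator_of_mem (by exact hω)]
      exact hgap _ (Real.exp_pos _).le (Real.exp_le_exp.2 hω)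
    · rw [Set.indicator_of_notMem (by exact hω), add_zero]
      exact rpow_half hg hg1 (Real.exp_pos _).le
  have hI1 : Integrable (fun ω : ℕ → ℝ => (1 + Real.exp (g * S (D.w hs ω) 0 m)) / 2) D.P :=
    ((integrable_const _).add (exp_int D hs g m)).div_const 2
  have hI2 : Integrable ({ω : ℕ → ℝ | S (D.w hs ω) 0 m ≤ -1}.indicator (fun _ => c)) D.P :=
    (integrable_const c).indicator hset
  have h1 : 1 + c * q ≤ ∫ ω, phi (D.w hs ω) 0 m ^ g ∂D.P := by
    have h2 : ∫ ω, ((1 + Real.exp (g * S (D.w hs ω) 0 m)) / 2 +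
        {ω : ℕ → ℝ | S (D.w hs ω) 0 m ≤ -1}.indicator (fun _ => c) ω) ∂D.P ≤
        ∫ ω, phi (D.w hs ω) 0 m ^ g ∂D.P :=
      integral_mono (hI1.add hI2) (phig_int D hs hg.le hg1.le m) hpt
    rw [integral_add hI1 hI2, integral_div, integral_add (integrable_const _) (exp_int D hs g m),
      hEg, integral_indicator hset, setIntegral_const] at h2
    simp only [integral_const, probReal_univ, smul_eq_mul, mul_one] at h2
    have h3 : c * q ≤ D.P.real {ω | S (D.w hs ω) 0 m ≤ -1} * c := by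
      rw [mul_comm]
      exact mul_le_mul_of_nonneg_right hq hc
    linarith
  unfold ph
  rw [← hgD]
  refine (mul_le_mul_of_nonneg_left h1 (Real.exp_pos _).le).trans ?_
  rw [← integral_const_mul]
  refine integral_mono ((phig_int D hs hg.le hg1.le m).const_mul _)
    (phig_int D h hg.le hg1.le m) fun ω => ?_
  show Real.exp (-v) * phi (D.w hs ω) 0 m ^ g ≤ phi (D.w h ω) 0 m ^ g
  have e1 : S (D.w h ω) 0 m = S (D.w hs ω) 0 m - v := by
    rw [S_eq, S_eq, hv]
    ring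
  have h2 : Real.exp (-v) * phi (D.w hs ω) 0 m ≤ phi (D.w h ω) 0 m := by
    unfold phi
    rw [e1, sub_eq_add_neg, Real.exp_add]
    linarith
  have h3 : Real.exp (-v) ≤ Real.exp (-v) ^ g := by
    rw [← Real.exp_mul, Real.exp_le_exp]
    nlinarith
  calc Real.exp (-v) * phi (D.w hs ω) 0 m ^ g ≤ Real.exp (-v) ^ g * phi (D.w hs ω) 0 m ^ g :=
        mul_le_mul_of_nonneg_right h3 (Real.rpow_nonneg (phi_pos _ _ _).le g)
    _ = (Real.exp (-v) * phi (D.w hs ω) 0 m) ^ g :=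
        (Real.mul_rpow (Real.exp_pos _).le (phi_pos _ _ _).le).symm
    _ ≤ _ := Real.rpow_le_rpow (mul_nonneg (Real.exp_pos _).le (phi_pos _ _ _).le) h2 hg.le

end Pool.Agent.J6H52.Cop
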